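import Mathlib
import Pool.Agent.W5h30.MED.C

/-!
# All tails of the sum-of-digits measures `P_t` (MP_23af5d_nt)
-/

set_option autoImplicit false

namespace Pool.Agent.Results.MP_23af5d_nt.AllTails

open Finset

/-- `P t d` is the mass of the integer `d` under the measure `P_t`, `t ≥ 1`: `P_1 = δ_0`,
`P_{2n} = P_n` and `P_{2n+1}(d) = P_n(d - 1) / 2 + P_{n+1}(d + 1) / 2`. -/
def IsFamily (P : ℕ → ℤ → ℝ) : Prop :=
  (∀ d, P 1 d = if d = 0 then 1 else 0) ∧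
  (∀ n, 1 ≤ n → ∀ d, P (2 * n) d = P n d) ∧
  (∀ n, 1 ≤ n → ∀ d, P (2 * n + 1) d = P n (d - 1) / 2 + P (n + 1) (d + 1) / 2)

/-- **All tails of the measures `P_t`.** The recursion has a solution; the measures `P_t` are
probability measures, and for all `t ≥ 1`, `L ≥ 0` with `t < 2 ^ (L + 2)` and all `m ≥ 0` both
`P_t({d : d ≥ -m})` and `P_t({d : d ≤ m})` are at least
`1/2 + 2 ^ (-(2 L + m + 1)) ∑_{j = 1}^{m} C(2 L + m, L + j)`, which is greater than `1/2` for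
`m ≥ 1`. -/
theorem result : (∃ P : ℕ → ℤ → ℝ, IsFamily P) ∧ ∀ P : ℕ → ℤ → ℝ, IsFamily P → ∀ t : ℕ, 1 ≤ t →
    (∀ d, 0 ≤ P t d) ∧ HasSum (P t) 1 ∧
    ∀ L m : ℕ, t < 2 ^ (L + 2) →
      1 / 2 + (∑ j ∈ Icc 1 m, ((2 * L + m).choose (L + j) : ℝ)) / 2 ^ (2 * L + m + 1) ≤
        ∑' j : ℕ, P t (-(m : ℤ) + j) ∧
      1 / 2 + (∑ j ∈ Icc 1 m, ((2 * L + m).choose (L + j) : ℝ)) / 2 ^ (2 * L + m + 1) ≤
        ∑' j : ℕ, P t ((m : ℤ) - j) ∧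
      (1 ≤ m → 0 < (∑ j ∈ Icc 1 m, ((2 * L + m).choose (L + j) : ℝ)) / 2 ^ (2 * L + m + 1)) := by
  refine ⟨⟨Pool.Agent.W5h30.MED.P, Pool.Agent.W5h30.MED.P_one, Pool.Agent.W5h30.MED.P_even,
    Pool.Agent.W5h30.MED.P_odd⟩, ?_⟩
  rintro P ⟨h1, h2, h3⟩ t ht
  have hP : P t = Pool.Agent.W5h30.MED.P t := Pool.Agent.W5h30.MED.unique P h1 h2 h3 t ht
  rw [hP]
  refine ⟨Pool.Agent.W5h30.MED.P_nonneg t, Pool.Agent.W5h30.MED.hasSum_P t ht, ?_⟩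
  intro L m hL
  have hQ : (∑ j ∈ Icc 1 m, ((2 * L + m).choose (L + j) : ℝ)) / 2 ^ (2 * L + m + 1) =
      Pool.Agent.W5h30.MED.Q m L / 2 := by
    unfold Pool.Agent.W5h30.MED.Q
    rw [pow_succ, div_div]
    congr 1
    rw [← Finset.Ico_succ_right_eq_Icc, Finset.sum_Ico_eq_sum_range]
    simp only [Order.succ_eq_add_one, Nat.add_sub_cancel]
    exact sum_congr rfl fun j _ => by rw [add_assoc]
  rw [hQ]
  refine ⟨Pool.Agent.W5h30.MED.tails t ht L hL.le m, Pool.Agent.W5h30.MED.tails' t ht L hL m, ?_⟩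
  intro hm
  rw [← hQ]
  apply div_pos _ (by positivity)
  apply sum_pos
  · intro j hj
    rw [mem_Icc] at hj
    exact_mod_cast Nat.choose_pos (by omega)
  · exact ⟨1, by rw [mem_Icc]; omega⟩

end Pool.Agent.Results.MP_23af5d_nt.AllTails
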